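import Pool.Agent.W2helper16.PP.Bound

/-!
# MP_68c55c_lc: perfect 2-error-correcting codes have rare parameters

The number of pairs `(q, n)` with `3 ≤ q ≤ Q` and `n ≤ N` for which there is a perfect
2-error-correcting code with at least two words, of length `n` over an alphabet of `q` letters, is at
most `K Q ^ (1/3) N ^ ε`; so for every `A` the number of alphabet sizes `q ≤ Q` over which there is
such a code of length at most `q ^ A` is at most `K Q ^ (1/3 + ε)`.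
-/

set_option autoImplicit false

namespace Pool.Agent.Results.MP_68c55c_lc.RareParameters

open Finset

/-- There is a perfect 2-error-correcting code with at least two words, of length `n` over an alphabet of
`q` letters: a set `C` of words such that every word has Hamming distance at most `2` from exactly one word
of `C`. -/
def HasCode (q n : ℕ) : Prop :=
  ∃ C : Finset (Fin n → Fin q), 2 ≤ C.card ∧
    ∀ x : Fin n → Fin q, ∃! c : Fin n → Fin q, c ∈ C ∧ hammingDist x c ≤ 2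

/-- The pairs `(q, n)` with `3 ≤ q ≤ Q`, `n ≤ N` for which there is such a code. -/
def Params (Q N : ℕ) : Set (ℕ × ℕ) := {t | 3 ≤ t.1 ∧ t.1 ≤ Q ∧ t.2 ≤ N ∧ HasCode t.1 t.2}

/-- The alphabet sizes `q`, `3 ≤ q ≤ Q`, for which there is such a code of length at most `q ^ A`. -/
def Alphabets (A Q : ℕ) : Set ℕ := {q | 3 ≤ q ∧ q ≤ Q ∧ ∃ n : ℕ, n ≤ q ^ A ∧ HasCode q n}

theorem params_subset (Q N : ℕ) :
    Params Q N ⊆ (Pool.Agent.W2helper16.PP.G N (6 * (Q : ℝ) ^ ((1 : ℝ) / 3)) : Set (ℕ × ℕ)) := by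
  rintro ⟨q, n⟩ ⟨hq, hqQ, hnN, C, hC2, hC⟩
  simp only at hq hqQ hnN C hC2 hC
  obtain ⟨x, y, hS, hyn, hn⟩ := Pool.Agent.W2helper16.PP.sol_of_code (C := C) hC
    (by rw [Fintype.card_fin]; omega) hC2
  rw [Fintype.card_fin] at hS hn
  rw [Finset.mem_coe]
  apply Pool.Agent.W2helper16.PP.mem_G hS hq hyn hnN hn
  intro r hr
  apply mul_le_mul_of_nonneg_left _ (by norm_num)
  have h1 : ((r : ℝ) ^ 3) ≤ Q := by exact_mod_cast hr.trans hqQ
  have h2 : (r : ℝ) = ((r : ℝ) ^ 3) ^ ((1 : ℝ) / 3) := by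
    rw [← Real.rpow_natCast (r : ℝ) 3, ← Real.rpow_mul (by positivity)]
    norm_num
  rw [h2]
  exact Real.rpow_le_rpow (by positivity) h1 (by norm_num)

theorem params_finite (Q N : ℕ) : (Params Q N).Finite :=
  (Finset.finite_toSet _).subset (params_subset Q N)

/-- For every `ε > 0` there is `K` such that for all `Q` and `N` the number of pairs `(q, n)` with
`3 ≤ q ≤ Q`, `n ≤ N` for which there is a perfect 2-error-correcting code with at least two words, of length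
`n` over `q` letters, is at most `K Q ^ (1/3) N ^ ε`. For all `A` and `ε > 0` there is `K` such that
for all `Q` the number of `q` with `3 ≤ q ≤ Q` for which there is such a code of length at most `q ^ A` is
at most `K Q ^ (1/3 + ε)`. -/
theorem result :
    (∀ ε : ℝ, 0 < ε → ∃ K : ℝ, 0 < K ∧ ∀ Q N : ℕ,
      (Params Q N).Finite ∧ ((Params Q N).ncard : ℝ) ≤ K * (Q : ℝ) ^ ((1 : ℝ) / 3) * (N : ℝ) ^ ε) ∧
    (∀ A : ℕ, ∀ ε : ℝ, 0 < ε → ∃ K : ℝ, 0 < K ∧ ∀ Q : ℕ,
      ((Alphabets A Q).ncard : ℝ) ≤ K * (Q : ℝ) ^ ((1 : ℝ) / 3 + ε)) := by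
  have main : ∀ ε : ℝ, 0 < ε → ∃ K : ℝ, 0 < K ∧ ∀ Q N : ℕ,
      (Params Q N).Finite ∧ ((Params Q N).ncard : ℝ) ≤ K * (Q : ℝ) ^ ((1 : ℝ) / 3) * (N : ℝ) ^ ε := by
    intro ε hε
    obtain ⟨K, hK, hb⟩ := Pool.Agent.W2helper16.PP.bound ε hε
    refine ⟨K, hK, fun Q N => ⟨params_finite Q N, ?_⟩⟩
    refine le_trans ?_ (hb N ((Q : ℝ) ^ ((1 : ℝ) / 3)) (by positivity))
    have := Set.ncard_le_ncard (params_subset Q N) (Finset.finite_toSet _)
    rw [Set.ncard_coe_finset] at this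
    exact_mod_cast this
  refine ⟨main, fun A ε hε => ?_⟩
  obtain ⟨K, hK, hb⟩ := main (ε / (A + 1)) (by positivity)
  refine ⟨K, hK, fun Q => ?_⟩
  rcases Nat.eq_zero_or_pos Q with hQ | hQ
  · subst hQ
    have h0 : Alphabets A 0 = ∅ := by
      ext q
      simp only [Alphabets, Set.mem_ofPred_eq, Set.mem_empty_iff_false, iff_false]
      omega
    rw [h0, Set.ncard_empty]
    simp only [CharP.cast_eq_zero]
    positivity
  have hQ1 : (1 : ℝ) ≤ Q := by exact_mod_cast hQ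
  have hsub : Alphabets A Q ⊆ Prod.fst '' Params Q (Q ^ (A + 1)) := by
    rintro q ⟨h1, h2, n, h3, h4⟩
    refine ⟨(q, n), ⟨h1, h2, ?_, h4⟩, rfl⟩
    calc n ≤ q ^ A := h3
      _ ≤ Q ^ A := Nat.pow_le_pow_left h2 A
      _ ≤ Q ^ (A + 1) := Nat.pow_le_pow_right hQ (by omega)
  have h1 : (Alphabets A Q).ncard ≤ (Params Q (Q ^ (A + 1))).ncard :=
    le_trans (Set.ncard_le_ncard hsub ((params_finite _ _).image _)) (Set.ncard_image_le (params_finite _ _))
  have h2 := (hb Q (Q ^ (A + 1))).2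
  have h3 : (((Q ^ (A + 1) : ℕ) : ℝ)) ^ (ε / (A + 1)) = (Q : ℝ) ^ ε := by
    push_cast
    rw [← Real.rpow_natCast (Q : ℝ) (A + 1), ← Real.rpow_mul (by positivity)]
    congr 1
    push_cast
    field_simp
  calc ((Alphabets A Q).ncard : ℝ) ≤ ((Params Q (Q ^ (A + 1))).ncard : ℝ) := by exact_mod_cast h1
    _ ≤ K * (Q : ℝ) ^ ((1 : ℝ) / 3) * (((Q ^ (A + 1) : ℕ) : ℝ)) ^ (ε / (A + 1)) := h2
    _ = K * (Q : ℝ) ^ ((1 : ℝ) / 3 + ε) := by
        rw [h3, Real.rpow_add (by positivity)]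
        ring

end Pool.Agent.Results.MP_68c55c_lc.RareParameters
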